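import Pool.Agent.U322.LR.Fin2

/-!
# The square-root bound in terms of the number of large singular values

Let `F` be any Boolean function on a finite product `X × Y`, with communication matrix `M` of real
rank `r ≥ 1`. If at most `k ≤ r` singular values of `M` are larger than `lam ≥ 0`, then

  `D(F) ≤ C (√(k + 1) log₂ (4 r / (k + 1)) + (log₂ r + 1) (log₂ r + 1 + log₂ (1 + lam)))`

with `C = 20000`. For `k = r` and `lam = 0` this is `D(F) = O(√r)`, the best bound known in terms of
the rank (Sudakov and Tomon, who removed the logarithm of Lovett's bound). In general the rank under
the square root is replaced by the number of the singular values above `lam`; the others only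
cost `log r log (1 + lam)` bits, whatever their number is. So a function with `D(F) ≥ r ^ c` has, for
every `ε < c`, at least `r ^ (2 c - o(1))` singular values larger than `2 ^ (r ^ ε)`.

Proof. Let `S × T` be a rectangle in which the density of the ones is at most `p ≤ 1 / 2`. By
interlacing the trace norm of the scaled submatrix is at most `√(k p)` up to constants and up to the
contribution `O(1)` of the small singular values, if `|S| |T| ≥ (lam r)²`. So the submatrix is the
matrix of the inner products of vectors of norm at most `(k p) ^ (1 / 4) + 1`, up to constants, for
most of its rows and columns. The rounding by `sin ⟨g, u⟩` and `sin ⟨g, v⟩` (`g` a Gaussian vector)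
halves the density of the ones after `O(√(k p) + 1)` rounds, each of which costs a constant factor of
the area. Now the factorization is computed anew. The sum of the numbers of the rounds is
`O(√k + log r)` until the density is `1 / (4 r)`, when a monochromatic rectangle is left. In a
rectangle of rank `ρ` the same holds with `min (k, ρ)` for `k`. The protocol of Nisan and Wigderson,
in which the rank is halved every time, now has the stated cost.
-/

set_option autoImplicit false

namespace Pool.Agent.Results.MP_e5d384_lc.FewLargeSingularValues

open Finset

/-- The communication matrix, as a real matrix. -/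
def mat {X Y : Type} (F : X → Y → Bool) : Matrix X Y ℝ :=
  Matrix.of (fun x y => if F x y then (1 : ℝ) else 0)

/-- `F` has a deterministic two-party protocol with `c` bits, in the model of the frozen statement
S15531. -/
def HasProtocol {X Y : Type} (F : X → Y → Bool) (c : ℕ) : Prop :=
  ∃ (owner : List Bool → Bool) (a : List Bool → X → Bool) (b : List Bool → Y → Bool)
    (out : List Bool → Bool), ∀ x y,
      out (Nat.iterate (fun t : List Bool => t ++ [if owner t then a t x else b t y]) c []) = F x y

/-- The singular values of `M` are the square roots of the eigenvalues of `M Mᵀ`. -/
theorem result (X Y : Type) [Fintype X] [Fintype Y] [DecidableEq X] [DecidableEq Y]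
    (F : X → Y → Bool) (k : ℕ) (lam : ℝ) (hlam : 0 ≤ lam)
    (h : (univ.filter (fun i => lam ^ 2 <
      (Matrix.isHermitian_mul_conjTranspose_self (mat F)).eigenvalues i)).card ≤ k)
    (hr : 1 ≤ (mat F).rank) (hk : k ≤ (mat F).rank) :
    ∃ c : ℕ, HasProtocol F c ∧
      (c : ℝ) ≤ 20000 * ((Real.logb 2 ((mat F).rank : ℝ) + 1) *
        (Real.logb 2 ((mat F).rank : ℝ) + 1 + Real.logb 2 (1 + lam)) +
        Real.sqrt (k + 1) * Real.logb 2 (4 * (mat F).rank / (k + 1))) :=
  Pool.Agent.U322.LR.proto_sing F k lam hlam
    (Pool.Agent.U322.LR.sing_of_values (mat F) _ k lam h) hk hr

end Pool.Agent.Results.MP_e5d384_lc.FewLargeSingularValues
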