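import Pool.Agent.U322.LR.Fin

/-!
# Lovett's bound in terms of the number of negative eigenvalues

Let `F` be a symmetric Boolean function, with communication matrix `M` of real rank `r`, and let
`lam ≥ 0`. If at most `k` eigenvalues of `M` are smaller than `-lam`, or if at most `k` of them are
larger than `lam`, then

  `D(F) ≤ 3200 (log₂ r + 1) ((√k + 1) (log₂ r + 1) + log₂ (1 + lam))`.

With `lam = 0` the rank in Lovett's bound `√r log r` is replaced by the smaller one of the numbers of
the negative and of the positive eigenvalues (at the price of one more logarithm); there is no
restriction on the number and the size of the eigenvalues of the other sign. With `lam > 0` one need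
not even count the negative eigenvalues above `-lam`, at the price of `log r log (1 + lam)`. So the
bound of the log-rank conjecture holds for all symmetric functions with at most polylogarithmically
many (in `r`) eigenvalues below `-lam` (or above `lam`), where `lam` may be quasipolynomial in `r`.

Proof. Let `S` and `T` be sets of rows and of columns. Scale the matrix by the weights
`1 / (2 |S|)` and `1 / (2 |T|)`: the Frobenius norm and the trace of the scaled matrix `B` are at most
one, and by interlacing `B` has at most `k` eigenvalues below `-1 / r` if `|S|, |T| ≥ lam r`. So the
negative part of `B` has trace at most `√k + 1`. As the trace of `B` is at most one, this also bounds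
the trace of the positive part, whatever its rank is. So most rows of `S` and most columns of `T`
have vectors of length `O(k ^ (1 / 4))` whose inner products are the entries of `M`. Random vectors
`g` round them: `sin ⟨g, u⟩` and `sin ⟨g, v⟩` have the correlation `sinh ⟨u, v⟩` up to scaling
(`g` Gaussian). After `O(√k log r)` rounds one value is so rare in a rectangle of relative size
`2 ^ (-O(√k log r))` that a monochromatic rectangle is left. Such rectangles in all submatrices give
a protocol (Nisan and Wigderson). The case of few large eigenvalues is the same for the complement.
-/

set_option autoImplicit false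

namespace Pool.Agent.Results.MP_e5d384_lc.OneSidedSpectrum

open Finset

/-- The communication matrix, as a real matrix. -/
def mat {X Y : Type} (F : X → Y → Bool) : Matrix X Y ℝ :=
  Matrix.of (fun x y => if F x y then (1 : ℝ) else 0)

/-- `F` has a deterministic two-party protocol with `c` bits, in the model of the frozen statement
S15531. -/
def HasProtocol {X Y : Type} (F : X → Y → Bool) (c : ℕ) : Prop :=
  ∃ (owner : List Bool → Bool) (a : List Bool → X → Bool) (b : List Bool → Y → Bool)
    (out : List Bool → Bool), ∀ x y,
      out (Nat.iterate (fun t : List Bool => t ++ [if owner t then a t x else b t y]) c []) = F x y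

theorem result (X : Type) [Fintype X] [DecidableEq X] (F : X → X → Bool)
    (hF : (mat F).IsHermitian) (k : ℕ) (lam : ℝ) (hlam : 0 ≤ lam)
    (h : (univ.filter (fun i => hF.eigenvalues i < -lam)).card ≤ k ∨
      (univ.filter (fun i => lam < hF.eigenvalues i)).card ≤ k) :
    ∃ c : ℕ, HasProtocol F c ∧
      (c : ℝ) ≤ 3200 * (Real.logb 2 ((mat F).rank : ℝ) + 1) *
        ((Real.sqrt k + 1) * (Real.logb 2 ((mat F).rank : ℝ) + 1) + Real.logb 2 (1 + lam)) :=
  Pool.Agent.U322.LR.proto_sym X F hF k lam hlam h

end Pool.Agent.Results.MP_e5d384_lc.OneSidedSpectrum
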