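import Pool.Agent.U671.SD.Rect
import Pool.Agent.R533.VC.NW

/-!
# The log-rank conjecture for functions of semialgebraic relations

Let `d` be fixed. A Boolean matrix is called semialgebraic of complexity at most `D` here if its
columns (or its rows) can be placed at points of `ℝ^d` such that each row (each column) is cut out
by a semialgebraic set of complexity at most `D`: a Boolean combination of sign conditions on
polynomials with sum of the degrees at most `D`. The sets may depend on the row in any way.

Let `f_1, …, f_m` be such matrices (of complexities `D_i`, with different placements, some of them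
with respect to the rows, some with respect to the columns), and let
`F(x, y) = g(f_1(x, y), …, f_m(x, y))` with an arbitrary function `g`. Then every rectangle contains
a rectangle of relative size at least `∏ (C D_i ^ d)⁻¹` on which all `f_i` are constant, and `F` has a
deterministic protocol with `C (log r + 1) (log r + ∑ (log D_i + 1) + 1)` bits, where `r` is the real
rank of `F` and `C` depends on `d` only. So the log-rank conjecture holds for these functions when
`m` is at most polylogarithmic and the complexities are at most quasipolynomial in the rank. (The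
bound from the VC dimension is of the order `D ^ d log r`, already for `m = 1`.)

Proof: the cells of a partitioning polynomial of degree `O(D)` (Guth and Katz); a row of complexity
at most `D` cuts few cells. Then the theorem of Nisan and Wigderson.
-/

set_option autoImplicit false

namespace Pool.Agent.Results.MP_e5d384_lc.SemialgebraicRows

open MvPolynomial Finset

/-- `S ⊆ ℝ^d` is a Boolean combination of conditions `g > 0`, `g = 0`, `g < 0` on finitely many
polynomials `g` for which the sum of the total degrees is at most `D`. -/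
def SemiAlg (d D : ℕ) (S : Set (Fin d → ℝ)) : Prop :=
  ∃ (t : ℕ) (g : Fin t → MvPolynomial (Fin d) ℝ) (Φ : Set (Fin t → SignType)),
    ∑ r, (g r).totalDegree ≤ D ∧ ∀ x, x ∈ S ↔ (fun r => SignType.sign (eval x (g r))) ∈ Φ

/-- The columns `y` of the Boolean matrix `F` can be placed at points `p y` of `ℝ^d` such that each
row is cut out by a semialgebraic set of complexity at most `D`. -/
def Rows {X Y : Type} (d D : ℕ) (F : X → Y → Bool) : Prop :=
  ∃ p : Y → Fin d → ℝ, ∀ x, ∃ S, SemiAlg d D S ∧ ∀ y, p y ∈ S ↔ F x y = true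

/-- The same with the roles of the rows and the columns interchanged allowed. -/
def SA {X Y : Type} (d D : ℕ) (F : X → Y → Bool) : Prop :=
  Rows d D F ∨ Rows d D (fun y x => F x y)

theorem rect_one (d : ℕ) (hd : 1 ≤ d) : ∃ C : ℕ, 1 ≤ C ∧ ∀ (X Y : Type) (F : X → Y → Bool) (D : ℕ),
    1 ≤ D → SA d D F → ∀ (A : Finset X) (B : Finset Y), A.Nonempty → B.Nonempty →
      ∃ A' ⊆ A, ∃ B' ⊆ B, ∃ v : Bool, (∀ x ∈ A', ∀ y ∈ B', F x y = v) ∧
        A.card * B.card ≤ C * D ^ d * (A'.card * B'.card) := by
  obtain ⟨C, hC, h⟩ := Pool.Agent.U671.SD.rect d hd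
  refine ⟨C, hC, fun X Y F D hD hF A B hA hB => ?_⟩
  rcases hF with hF | hF
  · exact h F D hD hF A B hA hB
  · obtain ⟨B', hB', A', hA', v, hv, hc⟩ := h (fun y x => F x y) D hD hF B A hB hA
    refine ⟨A', hA', B', hB', v, fun x hx y hy => hv y hy x hx, ?_⟩
    rw [Nat.mul_comm A.card, Nat.mul_comm A'.card]
    exact hc

theorem rect_all (d : ℕ) (C : ℕ) (hC : ∀ (X Y : Type) (F : X → Y → Bool) (D : ℕ),
    1 ≤ D → SA d D F → ∀ (A : Finset X) (B : Finset Y), A.Nonempty → B.Nonempty →
      ∃ A' ⊆ A, ∃ B' ⊆ B, ∃ v : Bool, (∀ x ∈ A', ∀ y ∈ B', F x y = v) ∧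
        A.card * B.card ≤ C * D ^ d * (A'.card * B'.card)) (X Y : Type) : ∀ (m : ℕ)
    (D : Fin m → ℕ) (f : Fin m → X → Y → Bool), (∀ i, 1 ≤ D i) → (∀ i, SA d (D i) (f i)) →
    ∀ (A : Finset X) (B : Finset Y), A.Nonempty → B.Nonempty →
      ∃ A' ⊆ A, ∃ B' ⊆ B, (∀ i, ∃ v : Bool, ∀ x ∈ A', ∀ y ∈ B', f i x y = v) ∧
        A.card * B.card ≤ (∏ i, C * D i ^ d) * (A'.card * B'.card) := by
  intro m
  induction m with
  | zero =>
    intro D f _ _ A B _ _
    exact ⟨A, Finset.Subset.refl _, B, Finset.Subset.refl _, fun i => i.elim0, by simp⟩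
  | succ m ih =>
    intro D f hD hf A B hA hB
    obtain ⟨A1, hA1, B1, hB1, v, hv, hc⟩ := hC X Y (f (Fin.last m)) (D (Fin.last m)) (hD _) (hf _)
      A B hA hB
    have h0 : 0 < A1.card * B1.card := by
      by_contra hcon
      have h1 : A1.card * B1.card = 0 := by omega
      rw [h1, mul_zero] at hc
      have := Nat.mul_pos hA.card_pos hB.card_pos
      omega
    have hA1n : A1.Nonempty := Finset.card_pos.1 (Nat.pos_of_mul_pos_right h0)
    have hB1n : B1.Nonempty := Finset.card_pos.1 (Nat.pos_of_mul_pos_left h0)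
    obtain ⟨A2, hA2, B2, hB2, hv2, hc2⟩ := ih (fun i => D i.castSucc) (fun i => f i.castSucc)
      (fun i => hD _) (fun i => hf _) A1 B1 hA1n hB1n
    refine ⟨A2, hA2.trans hA1, B2, hB2.trans hB1, fun i => ?_, ?_⟩
    · refine Fin.lastCases ?_ (fun i => ?_) i
      · exact ⟨v, fun x hx y hy => hv x (hA2 hx) y (hB2 hy)⟩
      · exact hv2 i
    · rw [Fin.prod_univ_castSucc]
      calc A.card * B.card ≤ C * D (Fin.last m) ^ d * (A1.card * B1.card) := hc
        _ ≤ C * D (Fin.last m) ^ d *
            ((∏ i : Fin m, C * D i.castSucc ^ d) * (A2.card * B2.card)) :=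
            Nat.mul_le_mul_left _ hc2
        _ = _ := by ring

theorem clog_le (n : ℕ) : (Nat.clog 2 n : ℝ) ≤ Real.logb 2 n + 1 := by
  rcases Nat.eq_zero_or_pos n with h | h
  · subst h
    simp
  · have h1 := Real.natCeil_logb_natCast 2 n
    rw [← h1]
    have h2 : (0 : ℝ) ≤ Real.logb 2 n :=
      Real.logb_nonneg (by norm_num) (by exact_mod_cast h)
    exact (Nat.ceil_lt_add_one h2).le

/-- Let `d ≥ 1`. There is `C` such that for all `m` and all semialgebraic Boolean matrices
`f_1, …, f_m` of complexities `D_i` (in dimension `d`, with respect to the rows or the columns):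
(1) every rectangle `A × B` contains a rectangle of relative size at least `∏ (C D_i ^ d)⁻¹` on which
all `f_i` are constant;
(2) for every `g`, the function `F(x, y) = g(f_1(x, y), …, f_m(x, y))` has a deterministic protocol
with at most `C (log₂ r + 1) (log₂ r + ∑ (log₂ D_i + 1) + 1)` bits, `r` its real rank. (Protocols as
in the frozen statement S15531: exactly `c` bits are exchanged, `t` is the transcript so far,
`owner t` says who speaks, and the answer is a function of the transcript.) -/
theorem result (d : ℕ) (hd : 1 ≤ d) : ∃ C : ℝ, 1 ≤ C ∧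
    ∀ (X Y : Type) [Fintype X] [Fintype Y] (m : ℕ) (D : Fin m → ℕ) (f : Fin m → X → Y → Bool),
      (∀ i, 1 ≤ D i) → (∀ i, SA d (D i) (f i)) →
      (∀ (A : Finset X) (B : Finset Y), A.Nonempty → B.Nonempty → ∃ A' ⊆ A, ∃ B' ⊆ B,
        (∀ i, ∃ v : Bool, ∀ x ∈ A', ∀ y ∈ B', f i x y = v) ∧
        (A.card * B.card : ℝ) ≤ (∏ i, C * (D i : ℝ) ^ d) * (A'.card * B'.card)) ∧
      ∀ g : (Fin m → Bool) → Bool,
        ∃ (c : ℕ) (owner : List Bool → Bool) (a : List Bool → X → Bool) (b : List Bool → Y → Bool)
          (out : List Bool → Bool),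
          (∀ x y, out (Nat.iterate
            (fun t : List Bool => t ++ [if owner t then a t x else b t y]) c []) =
              g (fun i => f i x y)) ∧
          (c : ℝ) ≤ C * (Real.logb 2 ((Matrix.of (fun (x : X) (y : Y) =>
            if g (fun i => f i x y) then (1 : ℝ) else 0)).rank : ℝ) + 1) *
            (Real.logb 2 ((Matrix.of (fun (x : X) (y : Y) =>
              if g (fun i => f i x y) then (1 : ℝ) else 0)).rank : ℝ) +
              ∑ i, (Real.logb 2 (D i) + 1) + 1) := by
  obtain ⟨C0, hC0, h0⟩ := rect_one d hd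
  have hall := rect_all d C0 h0
  have hC0r : (1 : ℝ) ≤ C0 := by exact_mod_cast hC0
  have hl0 : 0 ≤ Real.logb 2 C0 := Real.logb_nonneg (by norm_num) hC0r
  set C1 : ℝ := Real.logb 2 C0 + d + 3 with hC1
  have hd0 : (0 : ℝ) ≤ d := Nat.cast_nonneg _
  refine ⟨max C0 (2 * C1 + 2), le_max_of_le_left hC0r, ?_⟩
  intro X Y _ _ m D f hD hf
  refine ⟨?_, ?_⟩
  · intro A B hA hB
    obtain ⟨A', hA', B', hB', hv, hc⟩ := hall X Y m D f hD hf A B hA hB
    refine ⟨A', hA', B', hB', hv, ?_⟩
    have h1 : (A.card * B.card : ℝ) ≤ (∏ i, (C0 : ℝ) * (D i : ℝ) ^ d) * (A'.card * B'.card) := by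
      exact_mod_cast hc
    refine h1.trans (mul_le_mul_of_nonneg_right ?_ (by positivity))
    refine Finset.prod_le_prod (fun i _ => by positivity) fun i _ => ?_
    exact mul_le_mul_of_nonneg_right (le_max_left _ _) (by positivity)
  · intro g
    set F : X → Y → Bool := fun x y => g (fun i => f i x y) with hF
    set q : ℕ := ∏ i, C0 * D i ^ d with hq
    have hq1 : 1 ≤ q := by
      rw [hq]
      refine Nat.one_le_iff_ne_zero.2 (Finset.prod_ne_zero_iff.2 fun i _ => ?_)
      have := hD i
      positivity
    have hR : Pool.Agent.R533.VC.Rich F q := by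
      intro A B hA hB
      obtain ⟨A', hA', B', hB', hv, hc⟩ := hall X Y m D f hD hf A B hA hB
      choose v hv using hv
      refine ⟨A', hA', B', hB', g v, fun x hx y hy => ?_, hc⟩
      rw [hF]
      simp only
      congr 1
      funext i
      exact hv i x hx y hy
    set r : ℕ := (Pool.Agent.H630R2.LR.comm F).rank with hr
    have hrr : (Matrix.of (fun (x : X) (y : Y) =>
            if g (fun i => f i x y) then (1 : ℝ) else 0)).rank = r := rfl
    rw [hrr]
    have hw := Nat.le_pow_clog (b := 2) (by norm_num) (2 * r * q + 2)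
    obtain ⟨owner, a, b, out, hp⟩ := Pool.Agent.R533.VC.nw F q hq1 hR
      (Nat.clog 2 (2 * r * q + 2)) hw
    refine ⟨2 * Nat.clog 2 (2 * r * q + 2) * Nat.clog 2 r + 2, owner, a, b, out, hp, ?_⟩
    have hrlog : 0 ≤ Real.logb 2 (r : ℝ) := by
      rcases Nat.eq_zero_or_pos r with h | h
      · rw [h]; simp
      · exact Real.logb_nonneg (by norm_num) (by exact_mod_cast h)
    have hDlog : ∀ i, 0 ≤ Real.logb 2 (D i : ℝ) := fun i =>
      Real.logb_nonneg (by norm_num) (by exact_mod_cast hD i)
    have hSum : 0 ≤ ∑ i, (Real.logb 2 (D i) + 1) :=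
      Finset.sum_nonneg fun i _ => by linarith [hDlog i]
    set Λ : ℝ := Real.logb 2 (r : ℝ) with hΛ
    set sig : ℝ := ∑ i, (Real.logb 2 (D i) + 1) with hsig
    have hmain : ((2 * Nat.clog 2 (2 * r * q + 2) * Nat.clog 2 r + 2 : ℕ) : ℝ) ≤
        (2 * C1 + 2) * (Λ + 1) * (Λ + sig + 1) := by
      have hge1 : 1 ≤ (Λ + 1) * (Λ + sig + 1) := by nlinarith
      have hC13 : 3 ≤ C1 := by rw [hC1]; linarith
      rcases Nat.eq_zero_or_pos r with h | h
      · rw [h]
        simp only [Nat.clog_zero_right, mul_zero, zero_add, Nat.cast_ofNat]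
        nlinarith
      · have hr1 : (1 : ℝ) ≤ r := by exact_mod_cast h
        have hqr : (1 : ℝ) ≤ q := by exact_mod_cast hq1
        have hlogq : Real.logb 2 (q : ℝ) ≤ (Real.logb 2 C0 + d) * sig := by
          have e1 : (q : ℝ) = ∏ i, ((C0 : ℝ) * (D i : ℝ) ^ d) := by
            rw [hq]; push_cast; rfl
          rw [e1, Real.logb_prod]
          · rw [hsig, Finset.mul_sum]
            refine Finset.sum_le_sum fun i _ => ?_
            have hDi : (D i : ℝ) ≠ 0 := by
              have := hD i
              exact_mod_cast (by omega : D i ≠ 0)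
            rw [Real.logb_mul (by positivity) (pow_ne_zero _ hDi), Real.logb_pow]
            nlinarith [hDlog i, mul_nonneg hl0 (hDlog i)]
          · intro i _
            have := hD i
            have hDi : (D i : ℝ) ≠ 0 := by exact_mod_cast (by omega : D i ≠ 0)
            exact mul_ne_zero (by positivity) (pow_ne_zero _ hDi)
        have hlogN : Real.logb 2 ((2 * r * q + 2 : ℕ) : ℝ) ≤ 2 + Λ + Real.logb 2 (q : ℝ) := by
          have h2 : ((2 * r * q + 2 : ℕ) : ℝ) ≤ 2 ^ 2 * r * q := by
            push_cast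
            nlinarith
          calc Real.logb 2 ((2 * r * q + 2 : ℕ) : ℝ) ≤ Real.logb 2 (2 ^ 2 * r * q) :=
                Real.logb_le_logb_of_le (by norm_num) (by positivity) h2
            _ = 2 + Λ + Real.logb 2 (q : ℝ) := by
                rw [Real.logb_mul (by positivity) (by positivity),
                  Real.logb_mul (by norm_num) (by positivity), Real.logb_pow,
                  Real.logb_self_eq_one (by norm_num), ← hΛ]
                norm_num
        have hw1 : (Nat.clog 2 (2 * r * q + 2) : ℝ) ≤ C1 * (Λ + sig + 1) := by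
          refine (clog_le _).trans ?_
          have : 2 + Λ + (Real.logb 2 C0 + d) * sig + 1 ≤ C1 * (Λ + sig + 1) := by
            rw [hC1]
            nlinarith [mul_nonneg hl0 hrlog, mul_nonneg hd0 hrlog, mul_nonneg hl0 hSum]
          linarith
        have hw2 : (Nat.clog 2 r : ℝ) ≤ Λ + 1 := clog_le r
        have hw0 : (0 : ℝ) ≤ Nat.clog 2 (2 * r * q + 2) := Nat.cast_nonneg _
        have hr0 : (0 : ℝ) ≤ Nat.clog 2 r := Nat.cast_nonneg _
        have h3 : (Nat.clog 2 (2 * r * q + 2) : ℝ) * Nat.clog 2 r ≤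
            (C1 * (Λ + sig + 1)) * (Λ + 1) := mul_le_mul hw1 hw2 hr0 (by positivity)
        push_cast
        nlinarith
    refine hmain.trans ?_
    rw [mul_assoc, mul_assoc]
    refine mul_le_mul_of_nonneg_right (le_max_right _ _) ?_
    exact mul_nonneg (by linarith) (by linarith)

end Pool.Agent.Results.MP_e5d384_lc.SemialgebraicRows
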