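import Pool.Agent.U278.VC.Prot

/-!
# The log-rank conjecture for protocols with queries of small VC dimension, in rows and in columns

Let `f` be a relation between `X` and `Y`. Its columns have VC dimension at most `d` if there are no
`d + 1` rows in which all `2 ^ (d + 1)` patterns occur, and its rows have VC dimension at most `d` if this
holds with rows and columns interchanged (the two numbers can differ exponentially). For example all
matrices of sign rank at most `d` have both VC dimensions at most `d`.

Let `F : X × Y → {0,1}` be a function of real rank `r`. Suppose that the two parties can exchange `c` bits,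
in a deterministic protocol, so that for each transcript `τ` the value `F(x, y)` is an arbitrary
Boolean function of `x`, of the answers of `k` relations `f_(τ,i)` whose columns have VC dimensions with
sum at most `D`, and of the answers of `l` relations `h_(τ,j)` whose rows have VC dimensions with sum at
most `E`. Then `F` has a deterministic protocol with

  `58 (D + 1) (E + 1) (log₂ r + 1) (log₂ r + l + c + 1)`

bits. So the bound of the log-rank conjecture holds as soon as `D`, `E`, `l` and `c` are polylogarithmic in
the rank; `k`, the relations, their dependence on the transcript and the Boolean functions are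
arbitrary. The relations need not have small rank.

Proof. In a rectangle `A × B` we pass to the most popular transcript, then to a set of columns in which
the vectors of the answers `f` are equal up to a tiny proportion of the rows (by a packing argument a
proportion `ε ^ O(D)` of the columns has this property), then to a set of rows of proportion
`(ε') ^ O(E)` with the same property for `h`; here `ε` has to be much smaller than the
proportion of the rows that are left, and this gives the product `D E` in the exponent. For the most
popular value of `h` the function `F(x, y)` then depends, up to few errors, only on `x`. As the rank is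
small, a rectangle with few errors contains a monochromatic rectangle (Gavinsky and Lovett), and large
monochromatic rectangles in all rectangles give a protocol (Nisan and Wigderson). The case of one
relation with small VC dimension is in the starting library (`R533/VC`).
-/

set_option autoImplicit false

namespace Pool.Agent.Results.MP_e5d384_lc.SmallVCDimension

open Finset Pool.Agent.R533.VC Pool.Agent.U278.VC

/-- The columns of `f` have VC dimension at most `d`: if all `2 ^ k` patterns occur in some `k` rows
then `k ≤ d`. -/
def ColumnVC {X Y : Type} (f : X → Y → Bool) (d : ℕ) : Prop :=
  ∀ (k : ℕ) (x : Fin k → X), (∀ S : Fin k → Bool, ∃ y, ∀ i, f (x i) y = S i) → k ≤ d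

/-- The transcript of `c` bits: `owner t` says who speaks after the transcript `t`, and `a t x` or
`b t y` is the next bit. -/
def transcript {X Y : Type} (owner : List Bool → Bool) (a : List Bool → X → Bool)
    (b : List Bool → Y → Bool) (c : ℕ) (x : X) (y : Y) : List Bool :=
  Nat.iterate (fun t : List Bool => t ++ [if owner t then a t x else b t y]) c []

/-- The bound of the log-rank conjecture for protocols followed by queries of small VC dimension. -/
theorem result {X Y : Type} [Fintype X] [Fintype Y] (F : X → Y → Bool)
    (owner : List Bool → Bool) (a : List Bool → X → Bool) (b : List Bool → Y → Bool) (c : ℕ)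
    (k l D E : ℕ) (f : List Bool → Fin k → X → Y → Bool) (h : List Bool → Fin l → X → Y → Bool)
    (d : List Bool → Fin k → ℕ) (e : List Bool → Fin l → ℕ)
    (hf : ∀ τ i, ColumnVC (f τ i) (d τ i)) (hd : ∀ τ, ∑ i, d τ i ≤ D)
    (hh : ∀ τ j, ColumnVC (fun y x => h τ j x y) (e τ j)) (he : ∀ τ, ∑ j, e τ j ≤ E)
    (g : List Bool → X → (Fin k → Bool) → (Fin l → Bool) → Bool)
    (hF : ∀ x y, F x y = g (transcript owner a b c x y) x
      (fun i => f (transcript owner a b c x y) i x y)
      (fun j => h (transcript owner a b c x y) j x y)) :
    ∃ (c' : ℕ) (owner' : List Bool → Bool) (a' : List Bool → X → Bool) (b' : List Bool → Y → Bool)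
      (out : List Bool → Bool), (∀ x y, out (transcript owner' a' b' c' x y) = F x y) ∧
      (c' : ℝ) ≤ 58 * (D + 1) * (E + 1) *
        (Real.logb 2 ((Matrix.of fun x y => if F x y then (1 : ℝ) else 0).rank : ℝ) + 1) *
        (Real.logb 2 ((Matrix.of fun x y => if F x y then (1 : ℝ) else 0).rank : ℝ) + l + c + 1) := by
  have mono : ∀ {X Y Z : Type} [DecidableEq Z] (F : X → Y → Z) {D D' : ℕ}, D ≤ D' →
      GrowthZ F D → GrowthZ F D' := fun F _ _ hDD hG m x P =>
    (hG m x P).trans (Nat.pow_le_pow_right (Nat.succ_pos m) hDD)
  obtain ⟨c', ⟨owner', a', b', out, hout⟩, hc'⟩ := proto_leaves F owner a b c l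
    (fun τ x y i => f τ i x y) (fun τ x y j => h τ j x y) g D E
    (fun τ => mono _ (hd τ) (growthZ_vec k (f τ) (d τ) (hf τ)))
    (fun τ => mono _ (he τ) (growthZ_vec l (fun j y x => h τ j x y) (e τ) (hh τ))) hF
  exact ⟨c', owner', a', b', out, hout, hc'⟩

end Pool.Agent.Results.MP_e5d384_lc.SmallVCDimension
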